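import Mathlib

set_option autoImplicit false

/-!
# The Vámos matroid has no second symmetric power

Let `N` be a second symmetric power of `V₈`, `A = {a, a'}`, `B`, `C`, `D` the four pairs and
`K = A·(B ∪ C) ∪ B·B`.  Closing under the stars one gets `r(K) ≤ 7`, that `K` and the star of `d`
span `N`, and that `K ∪ d·A` and `K ∪ d·B` have rank at most `r(K) + 1` (in a linear model the
common point `P` of the lines `A`, `B`, `C`, `D` would satisfy `d P ∈ ⟨K⟩`).  As in the proof that
`V₈` has no one-element extension by such a point, submodularity gives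
`r(K ∪ d·C), r(K ∪ d·D) ≤ 2 r(K) - 6` and then `r(K) ≥ 8`.
-/

namespace Pool.Agent.Results.MP_60e9e7_co.NoSymmetricSquare

open Set

/-- `N` is a second symmetric quasi power of `M`: its ground set consists of the unordered pairs
`s(x, y)` (repetition allowed) of elements of `M`; if `a` is not a loop of `M`, then `x ↦ s(a, x)`
is an isomorphism from `M` onto the restriction of `N` to its image; if `a` is a loop of `M`,
then this restriction has rank `0`. -/
structure IsQuasiPower {α : Type} (M : Matroid α) (N : Matroid (Sym2 α)) : Prop where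
  ground : N.E = {z | ∀ x ∈ z, x ∈ M.E}
  nonloop : ∀ a ∈ M.E, ¬ M.IsLoop a → ∀ X ⊆ M.E, (N.Indep ((fun x => s(a, x)) '' X) ↔ M.Indep X)
  loop : ∀ a, M.IsLoop a → N.eRk ((fun x => s(a, x)) '' M.E) = 0

/-- `N` is a second symmetric power of `M`: a quasi power of rank `r (r + 1) / 2`, where `r` is the
rank of `M`. -/
def IsSecondSymmetricPower {α : Type} (M : Matroid α) (N : Matroid (Sym2 α)) : Prop :=
  IsQuasiPower M N ∧ ∃ r : ℕ, M.eRank = r ∧ N.eRank = ((r + 1).choose 2 : ℕ)

/-- The five circuits with four elements of the Vámos matroid; `a, a', b, b', c, c', d, d'` are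
`0, 1, 2, 3, 4, 5, 6, 7`. -/
def planes : Finset (Finset (Fin 8)) :=
  {{0, 1, 2, 3}, {0, 1, 4, 5}, {0, 1, 6, 7}, {2, 3, 4, 5}, {2, 3, 6, 7}}

/-- The independent sets of the Vámos matroid: the sets with at most four elements, except for
the five sets of `planes`. -/
def VIndep (I : Finset (Fin 8)) : Prop := I.card ≤ 4 ∧ I ∉ planes

instance (I : Finset (Fin 8)) : Decidable (VIndep I) := by unfold VIndep; infer_instance

theorem planes_card : ∀ I ∈ planes, I.card = 4 := by decide +kernel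

theorem two_extensions : ∀ I ∈ planes, ∀ J ∈ planes, I ≠ J → (I ∩ J).card ≤ 2 := by
  decide +kernel

theorem vindep_subset {I J : Finset (Fin 8)} (hJ : VIndep J) (hIJ : I ⊆ J) : VIndep I := by
  refine ⟨(Finset.card_le_card hIJ).trans hJ.1, fun h => ?_⟩
  have h4 := planes_card I h
  have : I = J := Finset.eq_of_subset_of_card_le hIJ (by rw [h4]; exact hJ.1)
  exact hJ.2 (this ▸ h)

theorem vindep_aug {I J : Finset (Fin 8)} (hI : VIndep I) (hJ : VIndep J)
    (hIJ : I.card < J.card) : ∃ e ∈ J, e ∉ I ∧ VIndep (insert e I) := by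
  by_contra hcon
  push Not at hcon
  have hJ4 := hJ.1
  obtain ⟨e, heJ, heI⟩ : ∃ e ∈ J, e ∉ I := by
    by_contra h
    push Not at h
    exact absurd (Finset.card_le_card (fun x hx => h x hx)) (by omega)
  have key : ∀ f ∈ J, f ∉ I → insert f I ∈ planes ∧ (insert f I).card = I.card + 1 := by
    intro f hf hfI
    have h1 := hcon f hf hfI
    have h2 : (insert f I).card = I.card + 1 := Finset.card_insert_of_notMem hfI
    refine ⟨?_, h2⟩
    by_contra h3
    exact h1 ⟨by omega, h3⟩
  obtain ⟨h1, h2⟩ := key e heJ heI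
  have h3 := planes_card _ h1
  have hI3 : I.card = 3 := by omega
  by_cases hall : ∀ f ∈ J, f ∉ I → f = e
  · have : J ⊆ insert e I := by
      intro f hf
      by_cases hfI : f ∈ I
      · exact Finset.mem_insert_of_mem hfI
      · rw [hall f hf hfI]; exact Finset.mem_insert_self _ _
    have : J = insert e I := Finset.eq_of_subset_of_card_le this (by omega)
    exact hJ.2 (this ▸ h1)
  · push Not at hall
    obtain ⟨f, hf, hfI, hfe⟩ := hall
    obtain ⟨h4, h5⟩ := key f hf hfI
    have hne : insert e I ≠ insert f I := by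
      intro h
      have : f ∈ insert e I := h ▸ Finset.mem_insert_self f I
      rcases Finset.mem_insert.1 this with h | h
      · exact hfe h
      · exact hfI h
    have h6 := two_extensions _ h1 _ h4 hne
    have h7 : I ⊆ insert e I ∩ insert f I := fun x hx =>
      Finset.mem_inter.2 ⟨Finset.mem_insert_of_mem hx, Finset.mem_insert_of_mem hx⟩
    have h8 := Finset.card_le_card h7
    omega

/-- The Vámos matroid `V₈`. -/
def vamos : Matroid (Fin 8) :=
  (IndepMatroid.ofFinset Set.univ VIndep ⟨by simp, by decide⟩ (fun _ _ h1 h2 => vindep_subset h1 h2)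
    (fun _ _ h1 h2 h3 => vindep_aug h1 h2 h3) (fun _ _ => Set.subset_univ _)).matroid

theorem vamos_ground : vamos.E = Set.univ := rfl

theorem vamos_indep (I : Finset (Fin 8)) : vamos.Indep (I : Set (Fin 8)) ↔ VIndep I := by
  unfold vamos
  simp [IndepMatroid.matroid]

theorem vamos_eRank : vamos.eRank = 4 := by
  apply le_antisymm
  · rw [← Matroid.eRk_ground, Matroid.eRk_le_iff]
    intro I _ hI
    have h1 := (vamos_indep I.toFinite.toFinset).1 (by simpa using hI)
    rw [← I.toFinite.coe_toFinset, Set.encard_coe_eq_coe_finsetCard]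
    exact_mod_cast h1.1
  · have h1 : vamos.Indep (({0, 2, 4, 6} : Finset (Fin 8)) : Set (Fin 8)) :=
      (vamos_indep _).2 (by decide +kernel)
    have h2 := h1.encard_le_eRank
    rw [Set.encard_coe_eq_coe_finsetCard] at h2
    exact_mod_cast h2

section proof

variable {N : Matroid (Sym2 (Fin 8))} (hN : IsQuasiPower vamos N)
include hN

theorem mem_ground (z : Sym2 (Fin 8)) : z ∈ N.E := by
  rw [hN.ground]
  intro x _
  rw [vamos_ground]
  trivial

theorem star_indep (a : Fin 8) (I : Finset (Fin 8)) :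
    N.Indep ((fun x => s(a, x)) '' (I : Set (Fin 8))) ↔ VIndep I := by
  rw [← vamos_indep]
  refine hN.nonloop a (by rw [vamos_ground]; trivial) ?_ _ (by rw [vamos_ground]; simp)
  have h : vamos.Indep ({a} : Set (Fin 8)) := by
    have := (vamos_indep {a}).2 (by revert a; decide +kernel)
    simpa using this
  exact fun hl => (Matroid.singleton_dep.2 hl).not_indep h

/-- Closing under the star of `a`. -/
theorem star (S : Set (Sym2 (Fin 8))) (a x : Fin 8) (I : Finset (Fin 8)) (hI : VIndep I)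
    (hx : ¬ VIndep (insert x I))
    (hS : ∀ y ∈ I, s(a, y) ∈ N.closure S) : s(a, x) ∈ N.closure S := by
  have h1 := (star_indep hN a I).2 hI
  have h2 : s(a, x) ∈ N.closure ((fun x => s(a, x)) '' (I : Set (Fin 8))) := by
    rw [h1.mem_closure_iff']
    refine ⟨mem_ground hN _, fun h3 => ?_⟩
    rw [← Set.image_insert_eq (f := fun x => s(a, x)), ← Finset.coe_insert] at h3
    exact absurd ((star_indep hN a _).1 h3) hx
  refine N.closure_subset_closure_of_subset_closure ?_ h2
  rintro _ ⟨y, hy, rfl⟩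
  exact hS y hy

/-- A full star. -/
theorem full (S : Set (Sym2 (Fin 8))) (a : Fin 8) (I : Finset (Fin 8)) (hI : VIndep I)
    (hI4 : I.card = 4) (hS : ∀ y ∈ I, s(a, y) ∈ N.closure S) (x : Fin 8) :
    s(a, x) ∈ N.closure S := by
  by_cases hx : x ∈ I
  · exact hS x hx
  · refine star hN S a x I hI (fun h => ?_) hS
    have := h.1
    rw [Finset.card_insert_of_notMem hx] at this
    omega

theorem swap (S : Set (Sym2 (Fin 8))) (a b : Fin 8) (h : s(a, b) ∈ N.closure S) :
    s(b, a) ∈ N.closure S := by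
  rwa [Sym2.eq_swap]

/-- Closing under the star of `a`, three elements. -/
theorem star3 (S : Set (Sym2 (Fin 8))) (a x i j k : Fin 8) (hI : VIndep {i, j, k})
    (hx : ¬ VIndep (insert x {i, j, k})) (h1 : s(a, i) ∈ N.closure S)
    (h2 : s(a, j) ∈ N.closure S) (h3 : s(a, k) ∈ N.closure S) : s(a, x) ∈ N.closure S := by
  refine star hN S a x {i, j, k} hI hx ?_
  simp only [Finset.mem_insert, Finset.mem_singleton, forall_eq_or_imp, forall_eq]
  exact ⟨h1, h2, h3⟩

theorem full4 (S : Set (Sym2 (Fin 8))) (a i j k l : Fin 8) (hI : VIndep {i, j, k, l})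
    (hI4 : ({i, j, k, l} : Finset (Fin 8)).card = 4) (h1 : s(a, i) ∈ N.closure S)
    (h2 : s(a, j) ∈ N.closure S) (h3 : s(a, k) ∈ N.closure S) (h4 : s(a, l) ∈ N.closure S)
    (x : Fin 8) : s(a, x) ∈ N.closure S := by
  refine full hN S a {i, j, k, l} hI hI4 ?_ x
  simp only [Finset.mem_insert, Finset.mem_singleton, forall_eq_or_imp, forall_eq]
  exact ⟨h1, h2, h3, h4⟩

omit hN in
/-- Seven elements which generate `K = A·(B ∪ C) ∪ B·B`. -/
def K0 : Set (Sym2 (Fin 8)) :=
  {s(0, 2), s(0, 3), s(0, 4), s(1, 2), s(1, 3), s(1, 4), s(2, 2)}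

theorem in_closure {S : Set (Sym2 (Fin 8))} {z : Sym2 (Fin 8)} (hz : z ∈ S) : z ∈ N.closure S :=
  N.subset_closure S (fun w _ => mem_ground hN w) hz

/-- The elements of `K`. -/
theorem k_elements {S : Set (Sym2 (Fin 8))} (hS : K0 ⊆ S) :
    s(0, 2) ∈ N.closure S ∧ s(0, 3) ∈ N.closure S ∧ s(0, 4) ∈ N.closure S ∧
    s(1, 2) ∈ N.closure S ∧ s(1, 3) ∈ N.closure S ∧ s(1, 4) ∈ N.closure S ∧
    s(2, 2) ∈ N.closure S ∧ s(2, 3) ∈ N.closure S := by
  have h : ∀ z ∈ K0, z ∈ N.closure S := fun z hz => in_closure hN (hS hz)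
  have h1 := h s(0, 2) (by simp [K0])
  have h2 := h s(0, 3) (by simp [K0])
  have h3 := h s(0, 4) (by simp [K0])
  have h4 := h s(1, 2) (by simp [K0])
  have h5 := h s(1, 3) (by simp [K0])
  have h6 := h s(1, 4) (by simp [K0])
  have h7 := h s(2, 2) (by simp [K0])
  exact ⟨h1, h2, h3, h4, h5, h6, h7,
    star3 hN S 2 3 0 1 2 (by decide +kernel) (by decide +kernel) (swap hN S _ _ h1)
      (swap hN S _ _ h4) h7⟩

/-- `K` and the star of `d` span. -/
theorem spanning {S : Set (Sym2 (Fin 8))} (hS : K0 ⊆ S) (h6 : ∀ x, s(6, x) ∈ N.closure S)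
    (z : Sym2 (Fin 8)) : z ∈ N.closure S := by
  obtain ⟨h02, h03, h04, h12, h13, h14, h22, h23⟩ := k_elements hN hS
  have r0 := full4 hN S 0 2 3 4 6 (by decide +kernel) (by decide +kernel) h02 h03 h04
    (swap hN S _ _ (h6 0))
  have r1 := full4 hN S 1 2 3 4 6 (by decide +kernel) (by decide +kernel) h12 h13 h14
    (swap hN S _ _ (h6 1))
  have r2 := full4 hN S 2 0 1 2 6 (by decide +kernel) (by decide +kernel) (swap hN S _ _ (r0 2))
    (swap hN S _ _ (r1 2)) h22 (swap hN S _ _ (h6 2))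
  induction z using Sym2.inductionOn with
  | hf a b =>
    exact full4 hN S a 0 1 2 6 (by decide +kernel) (by decide +kernel) (swap hN S _ _ (r0 a))
      (swap hN S _ _ (r1 a)) (swap hN S _ _ (r2 a)) (swap hN S _ _ (h6 a)) b

/-- `K` and `d a` generate `d a'`. -/
theorem gen_a {S : Set (Sym2 (Fin 8))} (hS : K0 ⊆ S) (h : s(6, 0) ∈ N.closure S) :
    s(6, 1) ∈ N.closure S := by
  obtain ⟨h02, h03, h04, h12, h13, h14, h22, h23⟩ := k_elements hN hS
  have r0 := full4 hN S 0 2 3 4 6 (by decide +kernel) (by decide +kernel) h02 h03 h04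
    (swap hN S _ _ h)
  exact swap hN S _ _ (full4 hN S 1 2 3 4 0 (by decide +kernel) (by decide +kernel) h12 h13 h14
    (swap hN S _ _ (r0 1)) 6)

/-- `K` and `d b` generate `d b'`. -/
theorem gen_b {S : Set (Sym2 (Fin 8))} (hS : K0 ⊆ S) (h : s(6, 2) ∈ N.closure S) :
    s(6, 3) ∈ N.closure S := by
  obtain ⟨h02, h03, h04, h12, h13, h14, h22, h23⟩ := k_elements hN hS
  have r2 := full4 hN S 2 0 1 2 6 (by decide +kernel) (by decide +kernel) (swap hN S _ _ h02)
    (swap hN S _ _ h12) h22 (swap hN S _ _ h)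
  have h43 := star3 hN S 4 3 0 1 2 (by decide +kernel) (by decide +kernel) (swap hN S _ _ h04)
    (swap hN S _ _ h14) (swap hN S _ _ (r2 4))
  exact swap hN S _ _ (full4 hN S 3 0 1 2 4 (by decide +kernel) (by decide +kernel)
    (swap hN S _ _ h03) (swap hN S _ _ h13) (swap hN S _ _ h23) (swap hN S _ _ h43) 6)

end proof

/-- The Vámos matroid has no second symmetric power. -/
theorem result : ¬ ∃ N : Matroid (Sym2 (Fin 8)), IsSecondSymmetricPower vamos N := by
  rintro ⟨N, hN, r, hr, hrank⟩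
  rw [vamos_eRank] at hr
  have hr4 : r = 4 := by exact_mod_cast hr.symm
  subst hr4
  have hrank : N.eRank = 10 := by rw [hrank]; rfl
  have hfin : ∀ S, N.eRk S ≠ ⊤ := fun S h => by
    have := N.eRk_le_eRank S
    rw [h, hrank] at this
    exact absurd (le_antisymm this le_top) (by decide)
  obtain ⟨ρ, hρ⟩ : ∃ ρ : Set (Sym2 (Fin 8)) → ℕ, ∀ S, N.eRk S = ρ S :=
    ⟨fun S => (N.eRk S).toNat, fun S => (ENat.coe_toNat (hfin S)).symm⟩
  have mono : ∀ S T, S ⊆ T → ρ S ≤ ρ T := fun S T h => by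
    have := N.eRk_mono h
    rw [hρ, hρ] at this
    exact_mod_cast this
  have submod : ∀ S T, ρ (S ∩ T) + ρ (S ∪ T) ≤ ρ S + ρ T := fun S T => by
    have := N.eRk_inter_add_eRk_union_le S T
    rw [hρ, hρ, hρ, hρ] at this
    exact_mod_cast this
  have ins : ∀ e S, ρ (insert e S) ≤ ρ S + 1 := fun e S => by
    have := N.eRk_insert_le_add_one e S
    rw [hρ, hρ] at this
    exact_mod_cast this
  have gen : ∀ S T, (∀ z ∈ S, z ∈ N.closure T) → ρ S ≤ ρ T := fun S T h => by
    have := N.eRk_mono (show S ⊆ N.closure T from h)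
    rw [N.eRk_closure_eq, hρ, hρ] at this
    exact_mod_cast this
  have span : ∀ S, (∀ z, z ∈ N.closure S) → 10 ≤ ρ S := fun S h => by
    have h1 := N.eRk_mono (show N.E ⊆ N.closure S from fun z _ => h z)
    rw [N.eRk_closure_eq, N.eRk_ground, hrank, hρ] at h1
    exact_mod_cast h1
  have hK : ρ K0 ≤ 7 := by
    have h1 := N.eRk_le_encard K0
    rw [hρ] at h1
    have h2 : K0.encard ≤ 7 := by
      unfold K0
      have : ({s(0, 2), s(0, 3), s(0, 4), s(1, 2), s(1, 3), s(1, 4), s(2, 2)} :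
          Set (Sym2 (Fin 8))) = (({s(0, 2), s(0, 3), s(0, 4), s(1, 2), s(1, 3), s(1, 4), s(2, 2)} :
          Finset (Sym2 (Fin 8))) : Set (Sym2 (Fin 8))) := by simp
      rw [this, Set.encard_coe_eq_coe_finsetCard]
      exact_mod_cast (show (({s(0, 2), s(0, 3), s(0, 4), s(1, 2), s(1, 3), s(1, 4), s(2, 2)} :
          Finset (Sym2 (Fin 8)))).card ≤ 7 from by decide +kernel)
    exact_mod_cast h1.trans h2
  -- the sets
  set XC : Set (Sym2 (Fin 8)) := K0 ∪ {s(6, 4), s(6, 5)} with hXC
  set XD : Set (Sym2 (Fin 8)) := K0 ∪ {s(6, 6), s(6, 7)} with hXD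
  have hKC : K0 ⊆ XC := subset_union_left
  have hKD : K0 ⊆ XD := subset_union_left
  -- one line more
  have two : ∀ (X : Set (Sym2 (Fin 8))) (u v : Fin 8), K0 ⊆ X →
      (∀ z ∈ X, z ∈ K0 ∨ z = s(6, u) ∨ z = s(6, v)) → ∀ p q : Fin 8,
      (∀ S : Set (Sym2 (Fin 8)), K0 ⊆ S → s(6, p) ∈ N.closure S → s(6, q) ∈ N.closure S) →
      VIndep {p, q, u} → ¬ VIndep (insert v {p, q, u}) →
      ρ (X ∪ {s(6, p), s(6, q)}) ≤ ρ K0 + 2 := by
    intro X u v _ hX p q hpq h1 h2
    have hsub : K0 ⊆ insert s(6, u) (insert s(6, p) K0) :=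
      (subset_insert _ _).trans (subset_insert _ _)
    have hp : s(6, p) ∈ N.closure (insert s(6, u) (insert s(6, p) K0)) :=
      in_closure hN (by simp)
    have hu : s(6, u) ∈ N.closure (insert s(6, u) (insert s(6, p) K0)) :=
      in_closure hN (by simp)
    have hq := hpq _ hsub hp
    have hv := star3 hN _ 6 v p q u h1 h2 hp hq hu
    have h3 := gen (X ∪ {s(6, p), s(6, q)}) (insert s(6, u) (insert s(6, p) K0)) (by
      rintro z (hz | hz)
      · rcases hX z hz with h | rfl | rfl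
        · exact in_closure hN (hsub h)
        · exact hu
        · exact hv
      · rcases hz with rfl | rfl
        · exact hp
        · exact hq)
    have h4 := ins s(6, u) (insert s(6, p) K0)
    have h5 := ins s(6, p) K0
    omega
  have memC : ∀ z ∈ XC, z ∈ K0 ∨ z = s(6, 4) ∨ z = s(6, 5) := by
    rintro z (hz | hz | hz)
    · exact Or.inl hz
    · exact Or.inr (Or.inl hz)
    · exact Or.inr (Or.inr hz)
  have memD : ∀ z ∈ XD, z ∈ K0 ∨ z = s(6, 6) ∨ z = s(6, 7) := by
    rintro z (hz | hz | hz)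
    · exact Or.inl hz
    · exact Or.inr (Or.inl hz)
    · exact Or.inr (Or.inr hz)
  have a1 := two XC 4 5 hKC memC 0 1 (fun S => gen_a hN) (by decide +kernel) (by decide +kernel)
  have a2 := two XC 4 5 hKC memC 2 3 (fun S => gen_b hN) (by decide +kernel) (by decide +kernel)
  have b1 := two XD 6 7 hKD memD 0 1 (fun S => gen_a hN) (by decide +kernel) (by decide +kernel)
  have b2 := two XD 6 7 hKD memD 2 3 (fun S => gen_b hN) (by decide +kernel) (by decide +kernel)
  -- spanning
  have sp : ∀ (S : Set (Sym2 (Fin 8))) (i j k l : Fin 8), K0 ⊆ S → VIndep {i, j, k, l} →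
      ({i, j, k, l} : Finset (Fin 8)).card = 4 → s(6, i) ∈ S → s(6, j) ∈ S → s(6, k) ∈ S →
      s(6, l) ∈ S → 10 ≤ ρ S := by
    intro S i j k l hS h1 h2 hi hj hk hl
    exact span S (spanning hN hS (full4 hN S 6 i j k l h1 h2 (in_closure hN hi)
      (in_closure hN hj) (in_closure hN hk) (in_closure hN hl)))
  have s1 := sp ((XC ∪ {s(6, 0), s(6, 1)}) ∪ (XC ∪ {s(6, 2), s(6, 3)})) 0 1 2 4
    (hKC.trans (subset_union_left.trans subset_union_left)) (by decide +kernel)
    (by decide +kernel) (by simp) (by simp) (by simp) (by simp [XC])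
  have s2 := sp ((XD ∪ {s(6, 0), s(6, 1)}) ∪ (XD ∪ {s(6, 2), s(6, 3)})) 0 1 2 6
    (hKD.trans (subset_union_left.trans subset_union_left)) (by decide +kernel)
    (by decide +kernel) (by simp) (by simp) (by simp) (by simp [XD])
  have s3 := sp (XC ∪ XD) 4 5 6 7 (hKC.trans subset_union_left) (by decide +kernel)
    (by decide +kernel) (by simp [XC]) (by simp [XC]) (by simp [XD]) (by simp [XD])
  have c1 := submod (XC ∪ {s(6, 0), s(6, 1)}) (XC ∪ {s(6, 2), s(6, 3)})
  have c2 := submod (XD ∪ {s(6, 0), s(6, 1)}) (XD ∪ {s(6, 2), s(6, 3)})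
  have c3 := submod XC XD
  have d1 := mono XC ((XC ∪ {s(6, 0), s(6, 1)}) ∩ (XC ∪ {s(6, 2), s(6, 3)}))
    (subset_inter subset_union_left subset_union_left)
  have d2 := mono XD ((XD ∪ {s(6, 0), s(6, 1)}) ∩ (XD ∪ {s(6, 2), s(6, 3)}))
    (subset_inter subset_union_left subset_union_left)
  have d3 := mono K0 (XC ∩ XD) (subset_inter hKC hKD)
  omega

end Pool.Agent.Results.MP_60e9e7_co.NoSymmetricSquare
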